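import Pool.Agent.H37.CP.Targets

/-!
# MP_c62aed_lc: row MOMX, fourth moments of the index gadget
-/

set_option autoImplicit false

namespace Pool.Agent.H77.CPE

open Finset Pool.Agent.H37.CP
open Pool.Agent.H1.LP (Clause viol Loc Sys supp ip)
open Pool.Agent.H96.KX (psz fac jun PDz)
open Pool.Agent.H91.AV (MomInd rhx bix kap)

theorem pf_MOMX (h : Pool.Agent.H91.AV.S_MOC) : S_MOMX := by
  intro U _ _ g hg θ
  have hc : Fintype.card (ZMod 2) = 2 := ZMod.card 2
  have h1 := h U (ZMod 2) 2 (fun v z => 2 * (if z = θ then g v else 0) - g v) g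
    (by
      intro v
      rw [sum_sub_distrib, ← mul_sum, sum_ite_eq' univ θ (fun _ => g v), if_pos (mem_univ _),
        sum_const, card_univ, hc]
      simp)
    (by
      intro v z
      have := hg v
      by_cases hz : z = θ
      · simp only [hz, if_true]
        rw [abs_le]; constructor <;> linarith
      · simp only [hz, if_false]
        rw [abs_le]; constructor <;> linarith)
  have e1 : ∀ s : U → ZMod 2, (∑ v, (2 * (if s v = θ then g v else 0) - g v)) =
      ((Fintype.card (ZMod 2) : ℝ) * (∑ u, if s u = θ then g u else 0) - ∑ u, g u) := by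
    intro s
    rw [sum_sub_distrib, ← mul_sum, hc]
    norm_num
  have e2 : ((Fintype.card (U → ZMod 2) : ℕ) : ℝ) = (Fintype.card (ZMod 2) : ℝ) ^ Fintype.card U := by
    rw [Fintype.card_fun]; push_cast; rfl
  have e3 : (2 * ((2 * 2).factorial : ℝ)) = 48 := by
    norm_num [Nat.factorial]
  rw [e2, ← e3]
  calc _ = ∑ s : U → ZMod 2, (∑ v, (2 * (if s v = θ then g v else 0) - g v)) ^ (2 * 2) := by
        refine sum_congr rfl fun s _ => ?_
        rw [e1 s]
    _ ≤ _ := h1

end Pool.Agent.H77.CPE
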