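import Pool.Agent.H37.CP.Targets

/-!
# MP_c62aed_lc: row PIE, the pieces after `p` levels of a triangle dag
-/

set_option autoImplicit false

namespace Pool.Agent.H77.CPE

open Finset Pool.Agent.H37.CP
open Pool.Agent.H1.LP (Clause viol Loc Sys supp ip)
open Pool.Agent.H96.KX (psz fac jun PDz)
open Pool.Agent.H91.AV (MomInd rhx bix kap)

private theorem mem_row_cons {Y X : Type} (c : Cmp Y X) (L : List (Cmp Y X)) (B : Finset X)
    (y : Y) (x : X) : x ∈ row (c :: L) B y ↔ x ∈ row L B y ∧ c.H y x := by
  classical
  simp only [row, mem_filter, List.mem_cons, forall_eq_or_imp]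
  tauto

private theorem nd_H {Y X V : Type} (w : V → X → ℝ) (u : V → Y → ℝ) (v : V) (y : Y) (x : X) :
    (nd w u v).H y x ↔ w v x < u v y := by
  simp [Cmp.H, nd]

private theorem ng_H {Y X V : Type} (w : V → X → ℝ) (u : V → Y → ℝ) (v : V) (y : Y) (x : X) :
    (ng w u v).H y x ↔ ¬ w v x < u v y := by
  simp [Cmp.H, ng]

open Classical in
private theorem split {Y X V : Type} (w : V → X → ℝ) (u : V → Y → ℝ) (v : V)
    (L : List (Cmp Y X)) (B : Finset X) (y : Y) (f : X → ℝ) :
    ∑ x ∈ row L B y, f x = ∑ x ∈ row (nd w u v :: L) B y, f x +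
      ∑ x ∈ row (ng w u v :: L) B y, f x := by
  have h1 : row (nd w u v :: L) B y = (row L B y).filter (fun x => w v x < u v y) := by
    ext x
    rw [mem_row_cons, nd_H, mem_filter]
  have h2 : row (ng w u v :: L) B y = (row L B y).filter (fun x => ¬ w v x < u v y) := by
    ext x
    rw [mem_row_cons, ng_H, mem_filter]
  rw [h1, h2, sum_filter_add_sum_filter_not]

theorem pf_PIE : S_PIE := by
  intro Y X ι V _ _ lY lX w u dp hD B D p
  induction p with
  | zero =>
    intro v L hv hr
    refine ⟨[(L, v)], by simp, ?_, ?_⟩
    · intro π hπ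
      simp only [List.mem_singleton] at hπ
      subst hπ
      exact ⟨by simp, hr, Or.inl (by simpa using hv)⟩
    · intro f
      simp
  | succ p ih =>
    intro v L hv hr
    rcases hD v with hl | ⟨v1, v2, h1, h2, hc⟩
    · refine ⟨[(L, v)], ?_, ?_, ?_⟩
      · simp only [List.length_singleton]
        exact Nat.one_le_two_pow
      · intro π hπ
        simp only [List.mem_singleton] at hπ
        subst hπ
        exact ⟨by simp, hr, Or.inr hl⟩
      · intro f
        simp
    · obtain ⟨P1, l1, a1, s1⟩ := ih v1 (nd w u v1 :: L) (by omega) (by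
        intro y x hx
        rw [mem_row_cons, nd_H] at hx
        exact hx.2)
      obtain ⟨P2, l2, a2, s2⟩ := ih v2 (ng w u v1 :: L) (by omega) (by
        intro y x hx
        rw [mem_row_cons, ng_H] at hx
        rcases hc y x (hr y x hx.1) with h | h
        · exact absurd h hx.2
        · exact h)
      refine ⟨P1 ++ P2, ?_, ?_, ?_⟩
      · rw [List.length_append, pow_succ]
        omega
      · intro π hπ
        rw [List.mem_append] at hπ
        rcases hπ with h | h
        · obtain ⟨b1, b2, b3⟩ := a1 π h
          refine ⟨?_, b2, b3⟩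
          simp only [List.length_cons] at b1
          omega
        · obtain ⟨b1, b2, b3⟩ := a2 π h
          refine ⟨?_, b2, b3⟩
          simp only [List.length_cons] at b1
          omega
      · intro f
        rw [List.map_append, List.sum_append, ← s1 f, ← s2 f, ← sum_add_distrib]
        refine sum_congr rfl fun y _ => ?_
        exact split w u v1 L B y (f y)

end Pool.Agent.H77.CPE
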